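import Pool.Agent.L7h48.SL.Stm

set_option autoImplicit false

open Finset Filter Topology

namespace Pool.Agent.L7h95.SL

open Pool.Agent.L7h48.SL

theorem s_CS : S_CS := by
  intro X mu Z L θ hX hZ hL hθ hmu hsq T hT hw
  have hX' : (0 : ℝ) < X := by exact_mod_cast hX
  have h1 : (∑ n ∈ T, mu n) ^ 2 ≤ (T.card : ℝ) * ∑ n ∈ T, mu n ^ 2 := by
    have := sq_sum_le_card_mul_sum_sq (s := T) (f := mu)
    simpa using this
  have h2 : ∑ n ∈ T, mu n ^ 2 ≤ L * (Z ^ 2 / X) := by
    refine le_trans ?_ hsq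
    exact Finset.sum_le_sum_of_subset_of_nonneg hT (fun _ _ _ => sq_nonneg _)
  have h3 : (θ * Z) ^ 2 ≤ (∑ n ∈ T, mu n) ^ 2 := by
    apply pow_le_pow_left₀ (by positivity) hw
  have h4 : (θ * Z) ^ 2 ≤ (T.card : ℝ) * (L * (Z ^ 2 / X)) :=
    h3.trans (h1.trans (mul_le_mul_of_nonneg_left h2 (Nat.cast_nonneg _)))
  have h5 : θ ^ 2 * X * Z ^ 2 ≤ L * T.card * Z ^ 2 := by
    have h6 : (θ * Z) ^ 2 * X ≤ (T.card : ℝ) * (L * (Z ^ 2 / X)) * X :=
      mul_le_mul_of_nonneg_right h4 hX'.le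
    have h7 : (T.card : ℝ) * (L * (Z ^ 2 / X)) * X = L * T.card * Z ^ 2 := by
      field_simp
    rw [h7] at h6
    nlinarith [h6]
  exact le_of_mul_le_mul_right h5 (by positivity)

theorem s_VN : S_VN := by
  intro K h al p hp hKp
  classical
  -- the forbidden classes
  let f : Option (Fin K) → ZMod p := fun o => match o with
    | none => -(al p : ZMod p)
    | some j => -(h j : ZMod p)
  have : Fact p.Prime := ⟨hp⟩
  have : NeZero p := ⟨hp.ne_zero⟩
  have hcard : (Finset.univ.image f).card < Fintype.card (ZMod p) := by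
    rw [ZMod.card]
    refine lt_of_le_of_lt Finset.card_image_le ?_
    rw [Finset.card_univ, Fintype.card_option, Fintype.card_fin]
    exact hKp
  obtain ⟨z, hz⟩ : ∃ z : ZMod p, z ∉ Finset.univ.image f := by
    by_contra hcon
    push Not at hcon
    have : Finset.univ.image f = Finset.univ := Finset.eq_univ_iff_forall.mpr hcon
    rw [this, Finset.card_univ] at hcard
    exact lt_irrefl _ hcard
  refine ⟨z.val, ?_, ?_⟩
  · intro hd
    have h1 : ((z.val + al p : ℕ) : ZMod p) = 0 := (ZMod.natCast_eq_zero_iff _ _).mpr hd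
    rw [Nat.cast_add, ZMod.natCast_zmod_val] at h1
    apply hz
    rw [Finset.mem_image]
    exact ⟨none, Finset.mem_univ _, (eq_neg_of_add_eq_zero_left h1).symm⟩
  · intro j hj hd
    have h1 : ((z.val + h j : ℕ) : ZMod p) = 0 := (ZMod.natCast_eq_zero_iff _ _).mpr hd
    rw [Nat.cast_add, ZMod.natCast_zmod_val] at h1
    apply hz
    rw [Finset.mem_image]
    exact ⟨some ⟨j, hj⟩, Finset.mem_univ _, (eq_neg_of_add_eq_zero_left h1).symm⟩

end Pool.Agent.L7h95.SL
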