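import Pool.Agent.L7h48.SL.Stm

set_option autoImplicit false

open Finset Filter Topology

namespace Pool.Agent.L7h95.SL

open Pool.Agent.L7h48.SL

/-- one prime: a good class -/
theorem gr_one (K p : ℕ) (hp : p.Prime) (hK : 6 * K + 6 ≤ p) (𝒯 : Finset (Finset ℕ))
    (hc : 𝒯.card ≤ K) (g : Finset ℕ → Finset ℕ) :
    ∃ c : ℕ, 1 ≤ c ∧ 2 * c < p ∧ ∀ T ∈ 𝒯,
      ((g T).card : ℝ) * (1 - 3 * (K : ℝ) / p) ≤ (((g T).filter (fun b => ¬ p ∣ b + c)).card : ℝ) := by
  classical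
  have hp0 : (0 : ℝ) < p := by exact_mod_cast hp.pos
  have hodd : p % 2 = 1 := by
    rcases hp.eq_two_or_odd with h | h
    · omega
    · exact h
  have hI : (Icc 1 ((p - 1) / 2)).Nonempty := ⟨1, by rw [mem_Icc]; omega⟩
  have huniq : ∀ b : ℕ, (((Icc 1 ((p - 1) / 2)).filter (fun c => p ∣ b + c)).card : ℝ) ≤ 1 := by
    intro b
    have : ((Icc 1 ((p - 1) / 2)).filter (fun c => p ∣ b + c)).card ≤ 1 := by
      rw [Finset.card_le_one]
      intro c hc c' hc'
      rw [mem_filter, mem_Icc] at hc hc'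
      have h1 : (c : ℤ) ≡ c' [ZMOD p] := by
        have h2 : ((b : ℤ) + c) ≡ b + c' [ZMOD p] := by
          have e1 : ((b : ℤ) + c) ≡ 0 [ZMOD p] :=
            Int.modEq_zero_iff_dvd.mpr (by exact_mod_cast hc.2)
          have e2 : ((b : ℤ) + c') ≡ 0 [ZMOD p] :=
            Int.modEq_zero_iff_dvd.mpr (by exact_mod_cast hc'.2)
          exact e1.trans e2.symm
        exact Int.ModEq.add_left_cancel' _ h2
      have h3 : c ≡ c' [MOD p] := by
        rwa [← Int.natCast_modEq_iff]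
      exact Nat.ModEq.eq_of_lt_of_lt h3 (by omega) (by omega)
    exact_mod_cast this
  have hsum : ∀ S : Finset ℕ, ∑ c ∈ Icc 1 ((p - 1) / 2),
      ((S.filter (fun b => p ∣ b + c)).card : ℝ) ≤ S.card := by
    intro S
    have e1 : ∀ c, ((S.filter (fun b => p ∣ b + c)).card : ℝ) =
        ∑ b ∈ S, (if p ∣ b + c then (1 : ℝ) else 0) := by
      intro c
      rw [Finset.card_filter]
      push_cast
      rfl
    have e2 : ∀ b, (((Icc 1 ((p - 1) / 2)).filter (fun c => p ∣ b + c)).card : ℝ) =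
        ∑ c ∈ Icc 1 ((p - 1) / 2), (if p ∣ b + c then (1 : ℝ) else 0) := by
      intro b
      rw [Finset.card_filter]
      push_cast
      rfl
    simp_rw [e1]
    rw [Finset.sum_comm]
    calc ∑ b ∈ S, ∑ c ∈ Icc 1 ((p - 1) / 2), (if p ∣ b + c then (1 : ℝ) else 0)
        ≤ ∑ b ∈ S, (1 : ℝ) := by
          apply Finset.sum_le_sum
          intro b _
          rw [← e2 b]; exact huniq b
      _ = S.card := by simp
  -- averaging
  have havg : ∑ c ∈ Icc 1 ((p - 1) / 2),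
      ∑ T ∈ 𝒯, (((g T).filter (fun b => p ∣ b + c)).card : ℝ) / (g T).card ≤
      ∑ _c ∈ Icc 1 ((p - 1) / 2), 3 * (K : ℝ) / p := by
    rw [Finset.sum_comm]
    have h1 : ∑ T ∈ 𝒯, ∑ c ∈ Icc 1 ((p - 1) / 2),
        (((g T).filter (fun b => p ∣ b + c)).card : ℝ) / (g T).card ≤ ∑ T ∈ 𝒯, (1 : ℝ) := by
      apply Finset.sum_le_sum
      intro T _
      rw [← Finset.sum_div]
      by_cases h0 : (g T).card = 0
      · rw [h0]; simp
      · rw [div_le_one (by positivity)]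
        exact hsum (g T)
    refine h1.trans ?_
    rw [Finset.sum_const, Finset.sum_const, nsmul_eq_mul, nsmul_eq_mul, mul_one, Nat.card_Icc]
    have h2 : ((𝒯.card : ℕ) : ℝ) ≤ K := by exact_mod_cast hc
    refine h2.trans ?_
    have h3 : (p : ℝ) ≤ 3 * (((p - 1) / 2 + 1 - 1 : ℕ) : ℝ) := by
      have : p ≤ 3 * ((p - 1) / 2 + 1 - 1) := by omega
      exact_mod_cast this
    have h4 : (((p - 1) / 2 + 1 - 1 : ℕ) : ℝ) * (3 * (K : ℝ) / p) =
        (K : ℝ) * (3 * (((p - 1) / 2 + 1 - 1 : ℕ) : ℝ) / p) := by ring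
    rw [h4]
    have h5 : (1 : ℝ) ≤ 3 * (((p - 1) / 2 + 1 - 1 : ℕ) : ℝ) / p := by
      rw [le_div_iff₀ hp0]; linarith
    nlinarith [h5, (Nat.cast_nonneg K : (0 : ℝ) ≤ K)]
  obtain ⟨c, hc1, hc2⟩ := Finset.exists_le_of_sum_le hI havg
  rw [mem_Icc] at hc1
  refine ⟨c, hc1.1, by omega, fun T hT => ?_⟩
  have h1 : (((g T).filter (fun b => p ∣ b + c)).card : ℝ) / (g T).card ≤ 3 * (K : ℝ) / p :=
    (Finset.single_le_sum (f := fun T => (((g T).filter (fun b => p ∣ b + c)).card : ℝ) / (g T).card)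
      (fun _ _ => by positivity) hT).trans hc2
  have h2 : (((g T).filter (fun b => p ∣ b + c)).card : ℝ) +
      (((g T).filter (fun b => ¬ p ∣ b + c)).card : ℝ) = (g T).card := by
    exact_mod_cast Finset.card_filter_add_card_filter_not (s := g T) (fun b => p ∣ b + c)
  by_cases h0 : (g T).card = 0
  · rw [h0]; simp
  · have h3 : (0 : ℝ) < (g T).card := by exact_mod_cast Nat.pos_of_ne_zero h0
    rw [div_le_iff₀ h3] at h1
    nlinarith

open Classical in
theorem gr_aux (K : ℕ) (𝒯 : Finset (Finset ℕ)) (hc : 𝒯.card ≤ K) (P : Finset ℕ) :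
    (∀ p ∈ P, p.Prime ∧ 6 * K + 6 ≤ p) →
    ∃ al : ℕ → ℕ, (∀ p ∈ P, 1 ≤ al p ∧ 2 * al p < p) ∧
      ∀ T ∈ 𝒯, (T.card : ℝ) * ∏ p ∈ P, (1 - 3 * (K : ℝ) / p) ≤
        ((T.filter (fun b => ∀ p ∈ P, ¬ p ∣ b + al p)).card : ℝ) := by
  induction P using Finset.induction_on with
  | empty =>
    intro _
    exact ⟨fun _ => 1, by simp, fun T _ => by simp⟩
  | insert p P hpP ih =>
    intro hP
    obtain ⟨al, h1, h2⟩ := ih fun q hq => hP q (Finset.mem_insert_of_mem hq)
    obtain ⟨hp, hK⟩ := hP p (Finset.mem_insert_self _ _)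
    obtain ⟨c, hc1, hc2, hc3⟩ := gr_one K p hp hK 𝒯 hc
      (fun T => T.filter (fun b => ∀ p ∈ P, ¬ p ∣ b + al p))
    have hne : ∀ q ∈ P, q ≠ p := fun q hq h => hpP (h ▸ hq)
    refine ⟨Function.update al p c, ?_, ?_⟩
    · intro q hq
      rcases Finset.mem_insert.mp hq with h | h
      · subst h
        rw [Function.update_self]; exact ⟨hc1, hc2⟩
      · rw [Function.update_of_ne (hne q h)]; exact h1 q h
    · intro T hT
      have h3 := hc3 T hT
      have h4 := h2 T hT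
      have hset : T.filter (fun b => ∀ q ∈ insert p P, ¬ q ∣ b + Function.update al p c q) =
          (T.filter (fun b => ∀ p ∈ P, ¬ p ∣ b + al p)).filter (fun b => ¬ p ∣ b + c) := by
        ext b
        simp only [mem_filter, Finset.forall_mem_insert, Function.update_self]
        constructor
        · rintro ⟨hb, hb1, hb2⟩
          refine ⟨⟨hb, fun q hq => ?_⟩, hb1⟩
          have := hb2 q hq
          rwa [Function.update_of_ne (hne q hq)] at this
        · rintro ⟨⟨hb, hb2⟩, hb1⟩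
          refine ⟨hb, hb1, fun q hq => ?_⟩
          rw [Function.update_of_ne (hne q hq)]
          exact hb2 q hq
      rw [hset, Finset.prod_insert hpP]
      refine le_trans ?_ h3
      have hp0 : (0 : ℝ) < p := by exact_mod_cast hp.pos
      have h5 : 0 ≤ 1 - 3 * (K : ℝ) / p := by
        rw [sub_nonneg, div_le_one hp0]
        have : ((6 * K + 6 : ℕ) : ℝ) ≤ p := by exact_mod_cast hK
        push_cast at this
        nlinarith [(Nat.cast_nonneg K : (0 : ℝ) ≤ K)]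
      calc (T.card : ℝ) * ((1 - 3 * (K : ℝ) / p) * ∏ p ∈ P, (1 - 3 * (K : ℝ) / p))
          = ((T.card : ℝ) * ∏ p ∈ P, (1 - 3 * (K : ℝ) / p)) * (1 - 3 * (K : ℝ) / p) := by ring
        _ ≤ _ := mul_le_mul_of_nonneg_right h4 h5

theorem s_GR : S_GR := fun K P hP 𝒯 hc => gr_aux K 𝒯 hc P hP

end Pool.Agent.L7h95.SL
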